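import Pool.Agent.H6.G9.Targets
import Pool.Agent.H84.GS.NRM

/-!
# Theorem (H), MP_c59857_nt: the exceptional primes of a sum of exponentials

A prime of the level `m` is exceptional for the frequencies `a 0, .., a (r - 1)` and the radius
`τ` if some difference of two of them is in distance at most `τ` from a fraction `s / q` with
`q` not dividing `s`. The reciprocals of the exceptional primes have the sum at most
`r ^ 2 (1 / 2) ^ (m / 400)`, for every radius `τ` up to `K 2 ^ (m / 90) / 2 ^ m`.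
-/

set_option autoImplicit false

namespace Pool.Agent.H11.G9

open Finset Pool.Agent.H6.N4D Pool.Agent.H93 Pool.Agent.H93.GS Pool.Agent.H6.GS2 Pool.Agent.H6.G9

/-- exceptional for the radius `τ` -/
def ExR (q r : ℕ) (a : ℕ → ℝ) (τ : ℝ) : Prop :=
  ∃ i < r, ∃ j < r, ∃ s : ℤ, ¬ ((q : ℤ) ∣ s) ∧ nd (a i - a j - (s : ℝ) / q) ≤ τ

theorem ind_mono {p q : Prop} (h : p → q) : EB.ind p ≤ EB.ind q := by
  unfold EB.ind
  by_cases hp : p
  · rw [if_pos hp, if_pos (h hp)]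
  · rw [if_neg hp]
    split_ifs <;> norm_num

/-- the sum over the exceptional primes, radius at most `(2 ^ m) ^ (- 1 / 2)` -/
theorem exr_sum (m r : ℕ) (a : ℕ → ℝ) (τ : ℝ) (hm : 400 ≤ m)
    (hτ : τ ≤ ((2 ^ m : ℕ) : ℝ) ^ (-(1 / 2) : ℝ)) :
    ∑ q ∈ EB.QQ m, 1 / (q : ℝ) * EB.ind (ExR q r a τ) ≤ (r : ℝ) ^ 2 * (1 / 2) ^ (m / 400) := by
  refine le_trans (Finset.sum_le_sum fun q _ => ?_)
    (Pool.Agent.H84.GS.exc_sum m (2 ^ m) r a hm le_rfl)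
  refine mul_le_mul_of_nonneg_left (ind_mono ?_) (by positivity)
  rintro ⟨i, hi, j, hj, s, hs, h⟩
  exact ⟨i, hi, j, hj, s, hs, h.trans hτ⟩

/-- the radius `K 2 ^ (m / 90) / 2 ^ m` is small -/
theorem rad_le (K : ℝ) : ∃ m₁ : ℕ, 400 ≤ m₁ ∧ ∀ m : ℕ, m₁ ≤ m →
    K * (2 ^ (m / 90) / 2 ^ m) ≤ ((2 ^ m : ℕ) : ℝ) ^ (-(1 / 2) : ℝ) := by
  obtain ⟨n, hn⟩ := pow_unbounded_of_one_lt K (by norm_num : (1 : ℝ) < 2)
  refine ⟨400 + 4 * n, by omega, fun m hm => ?_⟩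
  have h0 : (0 : ℝ) < 2 ^ m := by positivity
  have hs : (((2 ^ m : ℕ) : ℝ) ^ (-(1 / 2) : ℝ)) ^ 2 = 1 / 2 ^ m := by
    rw [Pool.Agent.H84.GS.sq_rpow (2 ^ m) Nat.one_le_two_pow]
    push_cast
    rfl
  refine le_trans (mul_le_mul_of_nonneg_right hn.le (by positivity)) ?_
  refine le_of_sq_le_sq ?_ (Real.rpow_nonneg (by positivity) _)
  rw [hs]
  have e : ((2 : ℝ) ^ n * (2 ^ (m / 90) / 2 ^ m)) ^ 2 =
      2 ^ (2 * n + 2 * (m / 90)) / 2 ^ m / 2 ^ m := by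
    rw [pow_add, pow_mul', pow_mul']
    field_simp
  rw [e]
  refine div_le_div_of_nonneg_right ?_ h0.le
  rw [div_le_one h0]
  exact pow_le_pow_right₀ (by norm_num) (by omega)

/-- the same for the radius `K 2 ^ (m / 100) / 2 ^ m` -/
theorem rad_le' (K : ℝ) (hK : 0 ≤ K) : ∃ m₁ : ℕ, 400 ≤ m₁ ∧ ∀ m : ℕ, m₁ ≤ m →
    K * (2 ^ (m / 100) / 2 ^ m) ≤ ((2 ^ m : ℕ) : ℝ) ^ (-(1 / 2) : ℝ) := by
  obtain ⟨m₁, h400, h⟩ := rad_le K
  refine ⟨m₁, h400, fun m hm => le_trans ?_ (h m hm)⟩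
  refine mul_le_mul_of_nonneg_left ?_ hK
  refine div_le_div_of_nonneg_right ?_ (by positivity)
  exact pow_le_pow_right₀ (by norm_num) (by omega)

/-- the sum over the exceptional primes, radius `K 2 ^ (m / 90) / 2 ^ m` -/
theorem exr_sum_90 (K : ℝ) : ∃ m₁ : ℕ, 400 ≤ m₁ ∧ ∀ (m r : ℕ) (a : ℕ → ℝ), m₁ ≤ m →
    ∑ q ∈ EB.QQ m, 1 / (q : ℝ) * EB.ind (ExR q r a (K * (2 ^ (m / 90) / 2 ^ m))) ≤
      (r : ℝ) ^ 2 * (1 / 2) ^ (m / 400) := by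
  obtain ⟨m₁, h400, h⟩ := rad_le K
  exact ⟨m₁, h400, fun m r a hm => exr_sum m r a _ (h400.trans hm) (h m hm)⟩

/-- the sum over the exceptional primes, radius `K 2 ^ (m / 100) / 2 ^ m` -/
theorem exr_sum_100 (K : ℝ) (hK : 0 ≤ K) : ∃ m₁ : ℕ, 400 ≤ m₁ ∧
    ∀ (m r : ℕ) (a : ℕ → ℝ), m₁ ≤ m →
    ∑ q ∈ EB.QQ m, 1 / (q : ℝ) * EB.ind (ExR q r a (K * (2 ^ (m / 100) / 2 ^ m))) ≤
      (r : ℝ) ^ 2 * (1 / 2) ^ (m / 400) := by
  obtain ⟨m₁, h400, h⟩ := rad_le' K hK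
  exact ⟨m₁, h400, fun m r a hm => exr_sum m r a _ (h400.trans hm) (h m hm)⟩

open Classical in
/-- the exceptional primes as a filter -/
theorem exr_filter (m r : ℕ) (a : ℕ → ℝ) (τ : ℝ) (hm : 400 ≤ m)
    (hτ : τ ≤ ((2 ^ m : ℕ) : ℝ) ^ (-(1 / 2) : ℝ)) :
    ∑ q ∈ (EB.QQ m).filter (fun q => ExR q r a τ), 1 / (q : ℝ) ≤
      (r : ℝ) ^ 2 * (1 / 2) ^ (m / 400) := by
  refine le_of_eq_of_le ?_ (exr_sum m r a τ hm hτ)
  rw [Finset.sum_filter]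
  refine Finset.sum_congr rfl fun q _ => ?_
  unfold EB.ind
  split_ifs with h1
  · rw [mul_one]
  · rw [mul_zero]

/-- a prime which is not exceptional -/
theorem not_exr {q r : ℕ} {a : ℕ → ℝ} {τ : ℝ} (h : ¬ ExR q r a τ) :
    ∀ i < r, ∀ j < r, ∀ s : ℤ, ¬ ((q : ℤ) ∣ s) → τ < nd (a i - a j - (s : ℝ) / q) := by
  intro i hi j hj s hs
  by_contra h'
  exact h ⟨i, hi, j, hj, s, hs, not_lt.mp h'⟩

/-- two frequencies of a sum are very near, or far from each other modulo `1 / q`, if `q` is not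
exceptional -/
theorem sp_of {m q r : ℕ} {a : ℕ → ℝ} {τ : ℝ} (h : ¬ ExR q r a τ) (hq : 1 ≤ q)
    (hτ : (2 : ℝ) ^ (m / 100) / 2 ^ m ≤ τ) : ∀ i < r, ∀ j < r, Sp m q (a i) (a j) := by
  intro i hi j hj
  by_cases hn : nd (a i - a j) ≤ 2 ^ (m / 90) / 2 ^ m
  · exact Or.inl hn
  · right
    intro t
    have h100 : (2 : ℝ) ^ (m / 100) / 2 ^ m ≤ 2 ^ (m / 90) / 2 ^ m :=
      div_le_div_of_nonneg_right (pow_le_pow_right₀ (by norm_num) (by omega)) (by positivity)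
    by_cases ht : (q : ℤ) ∣ t
    · obtain ⟨c, rfl⟩ := ht
      have hq0 : (q : ℝ) ≠ 0 := by
        have : (0 : ℝ) < q := by exact_mod_cast hq
        exact this.ne'
      have e : ((q * c : ℤ) : ℝ) / q = c := by
        push_cast
        field_simp
      rw [e, nd_sub_int]
      exact h100.trans (not_le.mp hn).le
    · exact hτ.trans (not_exr h i hi j hj t ht).le

end Pool.Agent.H11.G9
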